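import Pool.Agent.Lib.N4T.Out18

/-! Project n4t: the new statement contains the statement of the project n4s. -/

namespace Pool.Agent.Lib.N4T

theorem old18 (h : St_N4A) : N4S.St_N4F := by
  intro X ι I _ _ _ _ _ _ _ G β U f u a hG hβ hC hA ha hN hD hT hQ h1 h2
  rcases h X ι I G β U f u a hG hβ hC hA ha hN hD hT h1 h2 with g | ⟨g1, g2⟩ | ⟨hI, g, -⟩
  · exact .inl g
  · exact .inr ⟨g1.elim id hQ, g2⟩
  · exact absurd (hQ hI) g

end Pool.Agent.Lib.N4T
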