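import Pool.Agent.Lib.N4S.All

/-! Project n4t: without a hypothesis on the numerical dimension, the argument of the project n4s
gives a parallel multivector of degree three, whose class is not exact. -/

open scoped Classical Topology ContDiff ComplexOrder Matrix
open Set Filter MeasureTheory

set_option linter.unusedVariables false

noncomputable section

namespace Pool.Agent.Lib.N4T

open Pool.Agent.Lib.SV (E)
open Pool.Agent.Lib.HS32 Pool.Agent.Lib.HLK Pool.Agent.Lib.F4 Pool.Agent.Lib.NU4 Pool.Agent.Lib.N4S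
open Pool.Agent.Lib.EXH (aw)

theorem hLB : N4S.St_LB := N4S.st_LB N4S.lb3
theorem hPR1 : N4S.St_PR1 := N4S.st_PR1 N4S.st_SG
theorem hFLP : N4S.St_FLP := N4S.st_FLP N4S.st_ADM N4S.st_INF N4S.st_SG

/-- The situation that is to be excluded. -/
structure Bad3 {M : Mf 4} {I : Type} [Fintype I] (S : Sd M I) (a : ℝ → M.X → ℝ) : Prop where
  zs : Zs S a
  no : NoS M
  thr : ∀ m, 2 ≤ m → ∀ t, Nn S m t → DgM M 3 t → Zr M t

variable {M : Mf 4} [M.Cpt] {I : Type} [Fintype I] {S : Sd M I} {a : ℝ → M.X → ℝ}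

open E29 X29 in
/-- The exchange between fields and bivectors. -/
theorem exc (q : Sq) {m : ℕ} (B : Bad3 S a) (hm : 2 ≤ m) :
    (∃ π, Nn S m π ∧ DgM M 2 π ∧ Nz π) ↔ ∃ W, N4S.Wf S m W := by
  have hH := S.kae.toMet
  have cardle : ∀ A : Fs 4, A.card ≤ 4 := fun A => by
    simpa using Finset.card_le_univ A
  have nn := (hPR1 4 M I S a q m B.zs hm).1
  refine ⟨fun ⟨π, h, d, nz⟩ => ?_, fun ⟨W, h, nz, s⟩ => ?_⟩
  · obtain ⟨U, hU, ⟨e, he, z, hz, c⟩, pU, k⟩ := flip hFLP hLB N4S.st_ADM q B.zs B.no hm h d nz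
    obtain ⟨A, hA⟩ := Function.ne_iff.1 c
    obtain ⟨Y3, a1, a2, a3⟩ := k 3
    obtain ⟨Y, ⟨Y0, b0, b1⟩, b2, b3⟩ := k 1
    have c1 : A.card = 1 := by
      by_contra c1
      by_cases c3 : A.card = 3
      · exact hA ((a3 e z A c3).symm.trans (congrFun (B.thr m hm _ a1 a2 e he z hz) A))
      refine hA (pa_zero pU he hz ?_)
      have := cardle A
      have k : A.card = 0 ∨ A.card = 2 ∨ A.card = 4 := by omega
      rcases k with k | k | k <;> rw [k] <;> norm_num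
    have K := st_KIT 4 M S.H m Y hH
    have eq : M.All fun e z => Y e z = vec M (fun e z k => Y e z {k}) e z := fun e he z hz =>
      (st_FK 4 0 0 0 0 0 (Y e z)).2.2.2.2.2.2.2.2.2.2.2.2.2.2.2.2.2.1 (b2 e he z hz)
    have ht := (K.2.2.2.2.1 (nn _ ⟨Y0, b0, b1⟩).1).2.1
    refine ⟨_, ht, ((K.2.1 _ ht).2.2).2 ⟨e, he, z, hz, fun k => hA ?_⟩, Y0, b0,
      fun e he z hz => (eq e he z hz).symm.trans (b1 e he z hz)⟩
    exact (b3 e z A c1).symm.trans (congrFun ((eq e he z hz).trans k) A)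
  · have K0 := (st_KIT 4 M S.H m 0 hH).2.1 W h
    obtain ⟨U, hU, ⟨e, he, z, hz, c⟩, pU, k⟩ := flip hFLP hLB N4S.st_ADM q B.zs B.no hm s K0.2.1
      (K0.2.2.1 nz)
    obtain ⟨A, hA⟩ := Function.ne_iff.1 c
    obtain ⟨Y, b1, b2, b3⟩ := k 2
    have K := (st_KIT 4 M S.H m U hH).2.2.2.2.1 hU
    have c2 : A.card = 2 := by
      by_contra c2
      by_cases c0 : A.card = 0
      · rw [Finset.card_eq_zero.1 c0] at hA
        exact hA (B.no m (by omega) _ K.2.2.1 e he z hz)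
      by_cases c4 : A.card = 4
      · rw [Finset.eq_univ_of_card A (by simpa using c4)] at hA
        exact hA (B.no (m - 1) (by omega) _ (K.2.2.2.1 (by omega)) e he z hz)
      refine hA (pa_zero pU he hz ?_)
      have := cardle A
      have k : A.card = 1 ∨ A.card = 3 := by omega
      rcases k with k | k <;> rw [k] <;> norm_num
    exact ⟨Y, b1, b2, e, he, z, hz, fun k => hA ((b3 e z A c2).symm.trans (congrFun k A))⟩

/-- A bivector whose divergences converge gives a field. -/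
theorem ups (q : Sq) {m : ℕ} {T R : M.Fam (Fs 4 → ℂ)} (B : Bad3 S a) (hm : 2 ≤ m) (hT : HM M m T)
    (dT : DgM M 2 T) (nT : Nz T) (hR : HO S m R) (dR : DgM M 1 R) (h : Lq S a q m T R) :
    ∃ W, N4S.Wf S m W := by
  obtain ⟨g1, g2⟩ := N4S.st_GEN 4 M I S a q m T R B.zs hm hT hR h
  by_cases c : M.All fun e z => e.symm z ∈ Of S.toDk → R e z = 0
  · obtain ⟨W, w1, w2, w3⟩ := hLB 4 M I S a q m 2 T B.zs hm ⟨fun e he z hz _ => hT.hol e he z hz,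
      fun e he e' he' x hx hx' _ => hT.cmp e he e' he' x hx hx'⟩ dT (g2 c)
    exact (exc q B hm).1 ⟨up S m W, ⟨W, w1, fun _ _ _ _ => rfl⟩, K78.up_dg S w2,
      U71.nz_up w1.sec (U71.nz_of w3 (U71.nz_Of (U71.hm_con hT) nT))⟩
  · obtain ⟨W, w1, w2, w3⟩ := hLB 4 M I S a q m 1 R B.zs hm hR dR g1
    obtain ⟨Z, z1, z2, z3⟩ := U71.fld w1 w2 (U71.nz_of w3 c)
    exact ⟨Z, z1, z2, W, w1, z3⟩

/-- Two directions. -/
theorem r2 (q : Sq) {m l : ℕ} {W U : M.Fam (E 4)} {δ δ' : M.Fam ℂ} (bad : Bad3 S a) (hm : 0 < m)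
    (hl : 0 < l) (hW : Fd S a q m W δ) (hU : Fd S a q l U δ') : Zr M (wd M W (vec M U)) := by
  have met := S.kae.toMet
  by_cases w0 : Zr M W
  · exact fun e he z hz => by simp [wd, w0 e he z hz, crv]
  by_cases u0 : Zr M U
  · exact fun e he z hz => by simp [wd, vec, u0 e he z hz, crv]
  refine P55.chain (G := fun k Y => ¬Zr M Y ∧ ∃ δ, Fd S a q k Y δ) met
    (N4S.st_INF 4 M I S bad.no).1
    (fun k Y h => ⟨h.2.elim fun _ h => h.ht, h.1⟩) ?_ hm hl ⟨w0, δ, hW⟩ ⟨u0, δ', hU⟩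
  rintro k j Y V hk hj ⟨-, γ, y⟩ ⟨-, γ', v⟩ c
  have h2 : 2 ≤ k + j := by omega
  obtain ⟨v1, v2, -⟩ := (st_KIT 4 M S.H j 0 met).2.1 V v.ht
  obtain ⟨R, r1, r2, r3⟩ := N4S.st_PRD 4 M I S a q k j Y V γ γ' bad.zs hk hj y v
  obtain ⟨Z, z1, z2, z3⟩ := ups q bad h2
    (((st_KIT 4 M S.H j _ met).2.2.1 k Y y.ht).1 v1) (fun e he z hz =>
      ((st_FK 4 (Y e z) 0 0 0 0 (vec M V e z)).2.2.2.2.2.2.2.2.2.2.2.2.2.2.2.2.2.2.2.2 1
        (v2 e he z hz)).1) c r1 r2 r3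
  have p := hPR1 4 M I S a q (k + j) bad.zs h2
  exact ⟨Z, z2, _, p.2 Z z1 (p.1 _ z3).2.2⟩

/-- A multivector of top degree is zero. -/
theorem top (no : NoS M) {m : ℕ} (hm : 2 ≤ m) {T : M.Fam (Fs 4 → ℂ)} {H : M.Fam (Mat 4)}
    (hH : M.Met H) (hT : HM M m T) (d : DgM M 4 T) : Zr M T := fun e he z hz => funext fun A => by
  by_cases c : A.card = 4
  · rw [Finset.eq_univ_of_card A (by simpa using c)]
    exact no (m - 1) (by omega) _
      (((st_KIT 4 M H m T hH).2.2.2.2.1 hT).2.2.2.1 (by omega)) e he z hz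
  · exact d e he z hz A c

open R1 in
/-- One direction. -/
theorem r1 (q : Sq) {W V : M.Fam (E 4)} (bad : Bad3 S a) (hW : N4S.Wf S 2 W) (hV : V1 M V) :
    Sm0 S 1 (vec M V) ∨ (Nz (wd M W (vec M V)) ∧ Zr M (wd M W (vec M (yy M 2 W V)))) := by
  obtain ⟨w1, w2, w3⟩ := id hW
  have hZ := bad.zs
  have met := S.kae.toMet
  have kv : ∀ (m : ℕ) U, HT M m U → HM M m (vec M U) ∧ DgM M 1 (vec M U) ∧
      (¬Zr M U ↔ Nz (vec M U)) := fun m => (st_KIT 4 M S.H m 0 met).2.1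
  have pr := fun m => hPR1 4 M I S a q m hZ
  refine or_iff_not_imp_left.2 fun ns => ?_
  have nw : ∀ (m : ℕ) π, HM M m π → Sm0 S m π → Nz π → Nz (wd M V π) := fun m π p1 p2 p3 =>
    nz fun c => ns (N4S.st_SMV 4 M I S a V hZ hV (Or.inl
      (((N4S.st_NM 4 M I S a m 1 π hZ p1).2 p2).2.2 p3 V hV.ht c)))
  have nv : ∀ π, Nn S 2 π → Nz π → Nz (wd M V π) := fun π p1 p3 =>
    have p := (pr 2 le_rfl).1 π p1
    nw 2 π p.1 p.2.1 p3
  obtain ⟨u1, -, u3⟩ := kv 2 W w1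
  refine ⟨nz fun c => zn (nv _ w3 (u3.1 w2)) (swp st_FK c), by_contra fun c => ?_⟩
  obtain ⟨π, p4, p2, p3⟩ := (exc q bad le_rfl).2 ⟨W, hW⟩
  obtain ⟨p1, p6, p5⟩ := (pr 2 le_rfl).1 π p4
  obtain ⟨-, sw, pw⟩ := (pr 2 le_rfl).1 _ w3
  have z1 : Zr M (wd M W π) := by_contra fun k => by
    have t1 := ((st_KIT 4 M S.H 2 π met).2.2.1 2 W w1).1 p1
    have t2 : DgM M 3 (wd M W π) := fun e he z hz =>
      ((st_FK 4 (W e z) 0 0 0 0 (π e z)).2.2.2.2.2.2.2.2.2.2.2.2.2.2.2.2.2.2.2.2 2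
        (p2 e he z hz)).1
    refine zn (nw (2 + 2) _ t1 (((N4S.st_NM 4 M I S a 2 2 π hZ p1).2 p6).2.1 W w1 sw) (nz k))
      (top bad.no (m := 1 + (2 + 2)) (by omega) met
        (((st_KIT 4 M S.H (2 + 2) _ met).2.2.1 1 V hV.ht).1 t1) fun e he z hz => ?_)
    exact ((st_FK 4 (V e z) 0 0 0 0 (wd M W π e z)).2.2.2.2.2.2.2.2.2.2.2.2.2.2.2.2.2.2.2.2 3
      (t2 e he z hz)).1
  have z2 := (N4S.st_PPI 4 M I S a q 2 2 W hZ le_rfl le_rfl w1 pw).1 π p1 p5 z1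
  have z3 := N4S.st_NIL N4S.st_INF N4S.st_REC M I S a q W V π hZ bad.no w1 w2 pw hV.ht p1 p2 z1 z2
    (nv π p4 p3)
  have ch : ∀ j : ℕ, ∃ m : ℕ, j < m ∧ 2 ≤ m ∧ ∃ U, N4S.Wf S m U := fun j => by
    induction j with
    | zero => exact ⟨2, two_pos, le_rfl, W, hW⟩
    | succ j ih =>
      obtain ⟨m, m1, m2, U, v1, v2, v3⟩ := ih
      have pu := ((pr m m2).1 _ v3).2.2
      have z4 := r2 q bad two_pos (by omega) ((pr 2 le_rfl).2 W w1 pw) ((pr m m2).2 U v1 pu)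
      obtain ⟨q1, q2, q3, q4, q5, -⟩ := P55.cmp met m2 w1 w2 v1 v2 hV.ht p1 z4
        ((N4S.st_PPI 4 M I S a q 2 m W hZ le_rfl m2 w1 pw).2 U v1 pu z4) z1 z3 (nz c)
      obtain ⟨R, r1, r2, r3⟩ := N4S.st_LQY N4S.st_N4L 4 M I S a q 2 m _ π U _ hZ le_rfl m2 p1 p3 p6
        p5 v1 pu q4 q5 q1
      exact ⟨2 * m + 1, by omega, by omega, ups q bad (by omega) q1 q2 q3 r1 r2 r3⟩
  refine infinite_of_forall_exists_gt (fun j => ?_) (N4S.st_INF 4 M I S bad.no).1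
  obtain ⟨m, m1, -, U, v1, v2, -⟩ := ch j
  exact ⟨m, ⟨_, (kv m U v1).1, (kv m U v1).2.2.1 v2⟩, m1⟩

/-- A projective structure exists, or the curvature vanishes on the field. -/
theorem pq (q : Sq) {V : M.Fam (E 4)} (hB : Bad3 S a) (hV : V1 M V) (tV : Tg S V) :
    Sm0 S 1 (vec M V) ∨ ∃ r, Pq M S.H V r := by
  obtain ⟨⟨b, hb⟩, -⟩ := (N4S.st_OB1 4 M I S V hV.ht).1 tV
  obtain ⟨x, hx⟩ := N4S.st_OB2 4 M I S V b hV.ht tV hb
  have hA := N4S.st_ADM 4 M I S a q 2 hB.zs le_rfl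
  have hK := NU4.st_KIT
  rcases N4S.st_HLX 4 M S.H _ _ _ x four_pos S.kae hA hx.sec hx.cl with h | ⟨U, u1, u2, u3, u4⟩
  · exact Or.inr (Q80.qex S hB.no hV.ht hb hx h)
  have p : Nw S 2 (prt M 1 U) := P43.nw hLB S hB.zs le_rfl (N56.prt_sec 1 u1)
    (NU4.K92.prt_hol 1 u2)
    ((hK 4 M S.H 2 U S.kae.toMet).2.2.2.1 1).1
    ((N4S.st_WPT N4S.st_ADM 4 M I S a q 2 hB.zs le_rfl).1 U u1 u3 1)
  obtain ⟨W, w1, w2, w3, w4⟩ := M43.fld S a q NU4.st_FK hK p hx.deg u4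
  have w5 : M.All fun e z => vec M W e z = up S 2 (prt M 1 U) e z := fun e he z hz => by rw [w3]
  refine (r1 q hB ⟨w1, w2, _, p, w5⟩ hV).imp_right fun ⟨k1, k2⟩ => (w4 ?_).elim
  obtain ⟨s1, s2, s3⟩ := (hPR1 4 M I S a q 2 hB.zs le_rfl).1 _ ⟨_, p, w5⟩
  obtain ⟨-, l2, l3, -⟩ := hK 4 M S.H 1 (vec M V) S.kae.toMet
  obtain ⟨c, c1, c2⟩ := N4S.st_PB 4 M I S W V b w1 hV hb (N4S.st_HQ 4 M I S a q W hB.zs w1 s1
    (((hK 4 M S.H 2 U S.kae.toMet).2.1 W w1).2.2.1 w2) s2 s3) k1 k2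
  exact (N4S.st_PA hPR1 4 M I S a q W V _ x _ b c hB.zs w1 hV.ht p w5 hb hx
    ((l3 2 W w1).1 (l2 V hV.ht).1) k1 c1 c2).mono_left Nat.hyperfilter_le_atTop

/-- There is a parallel multivector of degree three. -/
theorem three (S : Sd M I) {V W : M.Fam (E 4)} (hZ : Zs S a) (no : NoS M) (hV : HT M 1 V)
    (hW : HT M 1 W) (tV : Tg S V) (tW : Tg S W) (h : ¬Zr M fun e z => wg (V e z) (W e z)) :
    ∃ m, 2 ≤ m ∧ ∃ t, Nn S m t ∧ DgM M 3 t ∧ ¬Zr M t := by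
  obtain ⟨q⟩ := N4S.st_SEQ
  have hF := NU4.st_FK
  have hL := NU4.st_LIE hF
  by_contra c
  have B : Bad3 S a := ⟨hZ, no, fun m hm t t1 t2 => by_contra fun k => c ⟨m, hm, t, t1, t2, k⟩⟩
  refine M43.main S hF NU4.st_B2
    (NU4.st_RC (NU4.st_EIG hL hF NU4.st_KIT) hL) (NU4.st_T3 NU4.st_XS NU4.st_VB)
    (NU4.st_WR hF (NU4.st_ALG hF) hL NU4.st_KIT) no (N4S.st_INF 4 M I S no).2 hV hW tV tW h
    (fun U => pq q B) (fun U u k => N4S.st_SMV 4 M I S a U hZ u (Or.inr k))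
    fun U U' u u' _ _ t t' s s' => ?_
  obtain ⟨δ, d⟩ := N4S.st_AFX 4 M I S a q U hZ no u t s
  obtain ⟨δ', d'⟩ := N4S.st_AFX 4 M I S a q U' hZ no u' t' s'
  exact r2 q B one_pos one_pos d d'

omit M I S a in
open KP in
theorem pos {n : ℕ} {M : Mf n} [M.Cpt] {H : M.Fam (Mat n)} {L : M.Co} {φ : M.Fam ℝ}
    (hm : M.Met H) (hφ : M.WtC L φ) {W : M.Fam (Fs n → ℂ)} (hW : (lam H L φ).Sec W)
    (hz : Nz W) : 0 < (lam H L φ).nr H W := by
  have o := (aLAM n M H L φ hm hφ).1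
  let g : Geo M (Fs n) := ⟨H, _, hm, o⟩
  refine (Lim84.nr0 hm o hW).lt_of_ne' fun c => ?_
  obtain ⟨e, he, z, hz, h⟩ := hz
  refine h ((IDX.st_INJ n M _ g (Pre.mk (g := g) W hW)).1 ?_ e he z hz)
  exact pow_eq_zero_iff (two_ne_zero) |>.1 ((Pre.norm_sq _).trans c)

omit M I S a in
/-- A member of the class is not exact. -/
theorem nex {n : ℕ} {M : Mf n} [M.Cpt] {I : Type} [Fintype I] {S : Sd M I} {a : ℝ → M.X → ℝ}
    {m : ℕ} {U y : M.Fam (Fs n → ℂ)} (hZ : Zs S a) (hm : 2 ≤ m) (hU : Nw S m U) (nz : Nz U)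
    (hy : (lb S m).Sec y) (h : M.All fun e z => (oQ S.H).ap y e z = U e z) : False := by
  obtain ⟨q⟩ := N4S.st_SEQ
  have hA := N4S.st_ADM n M I S a q m hZ hm
  have hH := S.kae
  have hM := hH.toMet
  obtain ⟨o0, -, a0⟩ := aLAM n M S.H _ _ hM hA.wt
  have hψ := fun j => ((a0 (ww S a q m j)).1 (hA.sm j)).1
  have r0 := pos hM hA.wt hU.sec nz
  have t := N4S.st_SG n M I S a q m U hZ hm hU
  obtain ⟨C, hC⟩ := hA.bd
  obtain ⟨K, K0, hK⟩ := Fl.bnd hM o0 hy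
  have key : ∀ j, (lb S m).nr S.H U ≤ √(K * C) *
      √((lj S a q m j).nr S.H ((oP S.H (aw M (pm S m) (ww S a q m j))).ap U)) := fun j => by
    have oj := (aLAM n M S.H _ _ hM (hψ j)).1
    have s1 : (lj S a q m j).Sec y := Lim84.sw _ hy
    have s2 : (lj S a q m j).Sec U := Lim84.sw _ hU.sec
    have e1 := aADJ n M S.H _ _ y U hH (hψ j) s1 s2
    have e2 : (lj S a q m j).ip S.H ((oQ S.H).ap y) U = (lj S a q m j).ip S.H U U := by
      refine integral_congr_ae (Eventually.of_forall fun x => ?_)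
      have := Mf.AllOn.ch h x
      simp only [Bun.pp, Mf.ev, this]
    have c1 := Fl.cs hM oj s1 (aSP n M S.H _ _ U hM (hψ j) s2)
    have c2 : (lj S a q m j).nr S.H y ≤ K * C := by
      refine le_trans (le_of_eq ?_) ((hK (fun x => Real.exp (-ww S a q m j x))
        (hA.sm j).neg.continuous.rexp fun x => (Real.exp_pos _).le).trans
          (mul_le_mul_of_nonneg_left (hC j) K0))
      refine integral_congr_ae (Eventually.of_forall fun x => ?_)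
      exact (((a0 (ww S a q m j)).2 y y x).2.1).trans (mul_comm _ _)
    have c3 : (lj S a q m j).nr S.H U = ((lj S a q m j).ip S.H U U).re := by
      let g : Geo M (Fs n) := ⟨S.H, _, hM, oj⟩
      exact (Pre.norm_sq (Pre.mk (g := g) U s2)).symm.trans
        (inner_self_eq_norm_sq (𝕜 := ℂ) (Pre.mk (g := g) U s2)).symm
    refine (Lim84.mono hM hA.wt (hA.sm j) (hA.le j) hU.sec).1.trans ?_
    rw [c3, ← e2, e1]
    refine (Complex.re_le_norm _).trans ?_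
    rw [norm_neg]
    exact c1.trans (mul_le_mul_of_nonneg_right (Real.sqrt_le_sqrt c2) (Real.sqrt_nonneg _))
  have l := (t.sqrt.const_mul √(K * C))
  rw [Real.sqrt_zero, mul_zero] at l
  exact r0.not_ge (ge_of_tendsto' l key)

/-- The theorem on the manifold layer. -/
theorem main (S : Sd M I) {V W : M.Fam (E 4)} (no : NoS M) (hV : HT M 1 V) (hW : HT M 1 W)
    (tV : Tg S V) (tW : Tg S W) (h : ¬Zr M fun e z => wg (V e z) (W e z)) :
    KS.Nu S.toDk 1 ∧ ∃ m, 2 ≤ m ∧ ∃ U, (lb S m).Sec U ∧ Hol U ∧ DgM M 3 U ∧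
      ¬∃ y, (lb S m).Sec y ∧ M.All fun e z => (oQ S.H).ap y e z = U e z := by
  obtain ⟨a, hZ⟩ := N4S.st_ZW 4 M I S
  obtain ⟨q⟩ := N4S.st_SEQ
  obtain ⟨m, hm, t, t1, t2, t3⟩ := three S hZ no hV hW tV tW h
  obtain ⟨p1, p2, -⟩ := (hPR1 4 M I S a q m hZ hm).1 t t1
  refine ⟨N4S.st_KV 4 M I S a m 3 t hZ rfl p1 t2 (R1.nz t3) p2, m, hm, ?_⟩
  obtain ⟨U, hU, eq⟩ := t1
  have dU : DgM M 3 U := fun e he z hz A c => by
    refine (congrFun (Spw84.eq_of_up hU.sec (E29.prt_pj 3 U ▸ Fl.pj_sec _ hU.sec)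
      (fun e he z hz _ => funext fun B => ?_) e he z hz) A).trans (if_neg c)
    by_cases b : B.card = 3
    · exact (E29.up_prt U e z b).symm
    · rw [← eq e he z hz, t2 e he z hz B b, E29.up_dg (E29.prt_dg 3 U) e he z hz B b]
  refine ⟨U, hU.sec, hU.hol, dU, fun ⟨y, y1, y2⟩ => nex hZ hm hU (R1.nz fun c => t3 ?_) y1 y2⟩
  exact fun e he z hz => (eq e he z hz).trans (by rw [up, c e he z hz, smul_zero])

/-- The same with a closed form in place of a holomorphic one. -/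
theorem main2 (S : Sd M I) {V W : M.Fam (E 4)} (no : NoS M) (hV : HT M 1 V) (hW : HT M 1 W)
    (tV : Tg S V) (tW : Tg S W) (h : ¬Zr M fun e z => wg (V e z) (W e z)) :
    (∃ m, 2 ≤ m ∧ ∃ U, (lb S m).Sec U ∧ DgM M 3 U ∧ Zr M ((oQ S.H).ap U) ∧
      ∀ y, (lb S m).Sec y → ¬M.All fun e z => (oQ S.H).ap y e z = U e z) ∧ KS.Nu S.toDk 1 := by
  obtain ⟨nu, m, hm, U, u1, u2, u3, u4⟩ := main S no hV hW tV tW h
  exact ⟨⟨m, hm, U, u1, u3, Fl.q_hol u2, fun y hy c => u4 ⟨y, hy, c⟩⟩, nu⟩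

end Pool.Agent.Lib.N4T
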