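import Pool.Agent.Lib.N4T.Core
import Pool.Agent.Lib.KS.All

/-! Project n4t: the statement, the dictionary for the Dolbeault classes, and the outer layer. -/

open scoped Classical Topology ContDiff ComplexOrder Matrix Manifold
open Set Filter Complex

noncomputable section

namespace Pool.Agent.Lib.N4T

section

open Pool.Agent.Lib.SV Pool.Agent.Lib.HS Pool.Agent.Lib.GH Pool.Agent.Lib.EX Pool.Agent.Lib.K3S
  Pool.Agent.Lib.N4S Pool.Agent.Lib.KS Pool.Agent.Lib.F4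

/-- The theorem. -/
def St_N4A : Prop := ∀ (X ι I : Type) [TopologicalSpace X] [ChartedSpace (E 4) X]
  [IsManifold 𝓘(ℂ, E 4) ω X] [CompactSpace X] [T2Space X] [ConnectedSpace X] [Fintype I]
  (G β : X → Mat 4) (U : ι → Set X) (f : I → ι → X → ℂ) (u : I → ι → ι → X → ℂ) (a : I → ℚ),
  Kaehler G → Semi 4 G β → Ctr 4 β U f u → Amp U u β f → (∀ k, 0 < a k) →
  NefW 4 G β U u (fun k => -a k) → Mod U u G β f (fun k => a k) →
  (∀ η ∈ TF 4 X 3 0, ∀ k i, ∀ x ∈ U i, f k i x = 0 → ∀ v : Fin 3 → E 4,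
    (∀ l, dAt 4 (f k i) x (v l) = 0) → η x v = 0) →
  (∀ ρ ∈ TF 4 X 1 0, ρ = 0) → (∃ σ ∈ TF 4 X 2 0, σ ≠ 0) →
  (∃ m, 0 < m ∧ ∃ s ∈ Pluri 4 X m, s ≠ 0) ∨ (((NSq U u G fun k => -a k) ∨ Nonempty I) ∧
    (∃ η ∈ TF 4 X 3 0, ∃ θ ∈ TF 4 X 3 0, LinearIndependent ℂ ![η, θ]) ∧
      ∀ η ∈ TF 4 X 3 0, ∀ θ ∈ TF 4 X 3 0, ∀ x, ¬LinearIndependent ℂ ![η x, θ x]) ∨
    Nonempty I ∧ ¬(NSq U u G fun k => -a k) ∧ ∃ j : ℕ, 0 < j ∧
      ¬Cl 4 U u (j + 1) (fun k => ⌈-(j * a k)⌉) 3 ⊆ Ex 4 U u (j + 1) (fun k => ⌈-(j * a k)⌉) 3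

end

open Pool.Agent.Lib.SV (E)
open Pool.Agent.Lib.HS32 Pool.Agent.Lib.HLK Pool.Agent.Lib.KS Pool.Agent.Lib.F4
open Pool.Agent.Lib.NU4 (DgM)

/-- If all closed forms of degree `q + 1` are exact, so are the closed multivectors. -/
theorem dic18 {n : ℕ} {X ι I : Type} [TopologicalSpace X] [ChartedSpace (E n) X]
    [IsManifold 𝓘(ℂ, E n) ω X] [Fintype I] {U : ι → Set X} {u : I → ι → ι → X → ℂ} {h : Cv n U u}
    [h.M.Cpt] {i : OpenPartialHomeomorph X (E n) → ι} {m : ℕ} {p : I → ℤ} {L : h.M.Co} {q : ℕ}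
    (o : h.Is i m p L) {H : h.M.Fam (Mat n)} {φ : h.M.Fam ℝ} (hH : h.M.Kae H) (hφ : h.M.WtC L φ)
    {W : h.M.Fam (Fs n → ℂ)} (w1 : (lam H L φ).Sec W) (w2 : DgM h.M (q + 1) W)
    (w3 : Zr h.M ((oQ H).ap W)) (c : Cl n U u m p (q + 1) ⊆ Ex n U u m p (q + 1)) :
    ∃ y, (lam H L φ).Sec y ∧ h.M.All fun e z => (oQ H).ap y e z = W e z := by
  obtain ⟨r1, -, -, r4⟩ := kRAI n h.M L
  obtain ⟨lo, ra, iv⟩ := r1 H φ hH.toMet
  have d1 := fun q => kDI1 kRAI n X ι I U u h i m p L q o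
  have d2 := fun q => kDI2 kDI0 (kDI1 kRAI) kRAI n X ι I U u h i m p L q o
    (aLWH n h.M H L φ hH hφ).1
  have low := fun W (g : (lam H L φ).Sec W) e he z hz =>
    aLOW n h.M H W hH e he z hz (g.sm e he z hz)
  obtain ⟨α, a1, a2⟩ := (d1 (q + 1)).2.1 _ (lo W w1)
  have a3 : h.M.All fun e z => Ph i m α e z = La (H e z) *ᵥ W e z := fun e he z hz => by
    have k := RAI.pj_mv (T := La (H e z)) 0 (q + 1) (fun A B c => FK2.la_ne _ (Ne.symm c)) (W e z)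
    have k2 : pj (q + 1) (W e z) = W e z := funext fun B => ite_eq_left_iff.2 fun c =>
      (w2 e he z hz B c).symm
    exact (a2 e he z hz).trans (k.symm.trans (by rw [k2]))
  have a4 : ∀ e ∈ h.M.C, ∀ z ∈ e.target, fq (Ph i m α e) z = 0 := fun e he z hz => by
    rw [(r4 z).2.1 _ (fun w => La (H e w) *ᵥ W e w) (mem_of_superset (e.open_target.mem_nhds hz)
      fun w hw => a3 e he w hw), low W w1 e he z hz, w3 e he z hz, Matrix.mulVec_zero]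
  obtain ⟨z1, z2⟩ := (d1 (q + 1 + 1)).2.2 0 ![] ![]
  simp only [Finset.univ_eq_empty, Finset.sum_empty] at z1 z2
  obtain ⟨-, γ, g1, g2⟩ := c ⟨a1, fun j x hx => funext fun v =>
    (((d2 (q + 1)) α a1 0 (z1 (fun s => s.elim0))).2 (fun e he z hz =>
      (z2 e z).trans (a4 e he z hz).symm) j x hx v).symm⟩
  have g3 := ((d1 q).1 γ g1).1
  refine ⟨_, ra _ g3, fun e he z hz => ?_⟩
  have k := low _ (ra _ g3) e he z hz
  beta_reduce at k ⊢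
  rw [(r4 z).2.1 _ (Ph i m γ e) (mem_of_superset (e.open_target.mem_nhds hz) fun w hw => by
    rw [mem_ofPred, Matrix.mulVec_mulVec, (iv e he w hw).1, Matrix.one_mulVec]),
    ← (d2 q γ g1 α a1).1 g2 e he z hz, a3 e he z hz] at k
  have k2 := congrArg (La (H e z)⁻¹ *ᵥ ·) k
  simpa only [Matrix.mulVec_mulVec, (iv e he z hz).2, Matrix.one_mulVec] using k2.symm

open Pool.Agent.Lib.GH Pool.Agent.Lib.F4P Pool.Agent.Lib.N4S
open Pool.Agent.Lib.HS.BBR (mf)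

theorem out18 : St_N4A := by
  intro X ι I _ _ _ _ _ _ _ G β U f u a hG hβ hC hA ha hN hD hT h1 h2
  rcases isEmpty_or_nonempty I with hI | hI
  · refine (aF4Q X G hG (OUT.nef hG hβ hC hN) h1 h2).imp_right
      fun ⟨⟨Θ, r, x, B, ce, hΘ, pos⟩, hp⟩ => .inl ⟨.inl ⟨fun _ _ => 0, Θ, r, x, B, fun _ _ _ _ => by
        simp, ce, fun _ y _ => ⟨contDiffAt_const, (hΘ y).1, fun v => ?_⟩, pos⟩, hp⟩
    simpa only [zero_add] using (hΘ y).2 v
  obtain ⟨σ, s1, s2⟩ := h2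
  refine or_iff_not_imp_left.2 fun hP => ?_
  obtain ⟨c, p, h, i, S, ap, o⟩ := BRG.brg four_pos hG hβ hC hA (fun k => Rat.cast_pos.2 (ha k))
    hN hD
  have : (mf 4 X).Cpt := ⟨‹_›, ‹_›, ‹_›⟩
  have : h.M.Cpt := ⟨‹_›, ‹_›, ‹_›⟩
  obtain ⟨r1, -, r3⟩ := K3S.bRS 4 (mf 4 X) ι U h.opn h.cov
  have no : ∀ m, 0 < m → ∀ t, h.M.HSec m t → ¬∃ e ∈ h.M.C, ∃ z ∈ e.target, t e z ≠ 0 :=
    fun m m0 t t1 t2 => let ⟨t', t3, t4⟩ := r3 m t t1 t2
      hP ⟨m, m0, (K3E.bMER 4 X).2 m t' t3 t4⟩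
  have q0 : ∀ ρ, H1 (mf 4 X) 0 ρ → Zr (mf 4 X) ρ := fun ρ h => by_contra fun c =>
    (G72.t1 (a := 0) h c).elim fun t ht => ht.2.1 (h1 t ht.1)
  obtain ⟨x₀⟩ : Nonempty X := inferInstance
  obtain ⟨-, V, W, -, -, a3, a4, a5⟩ := st_VW IDX.aIDX K3E.bKAN aXP aXT aOS aPT1 _ _ (HW.kae hG)
    (by_contra fun c => let ⟨m, m0, t, t1, t2⟩ := KBM.ms 4 _ I S.toDk (by rwa [o.H, r1])
      no m m0 t t1 t2) q0 (st_FH 4 X _ 2 2 rfl σ s1 s2)
    (st_FH 4 X _ 0 4 rfl (fun _ => AlternatingMap.constOfIsEmpty ℂ _ _ 1) (fun x v => by simp)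
      fun c => one_ne_zero (α := ℂ) (congrArg (fun β => β x₀ 0) c))
  refine or_iff_not_imp_right.2 fun hQ => ⟨.inr hI,
    ⟨_, OUT.fo_mem a3, _, OUT.fo_mem a4, DIC.ind a3 a4 a5⟩, fun η d θ d' => ?_⟩
  obtain ⟨Y, y, rfl⟩ := DIC.dic d
  obtain ⟨Z, z, rfl⟩ := DIC.dic d'
  have ht : ∀ {V}, HT (mf 4 X) 1 V → HT h.M 1 V := fun v =>
    ⟨fun e he => v.hol e he.1, fun e he e' he' => v.cmp e he.1 e' he'.1⟩
  have tg : ∀ {V}, HT (mf 4 X) 1 V → Tg S V := fun {V} v k (e : OpenPartialHomeomorph X (E 4)) he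
      w hw h0 => by
    have hx := e.map_target hw
    have k1 := v.cmp _ (HW.ch_mem (e.symm w)) e he.1 _ (mem_chart_source (M := X) _ _) hx
    have k2 := BRG.dat_one he.1 hw (hC.hol k _ _ (o.sub e he hx)) (V e w)
    have k3 := OUT.ker (hT _ (OUT.fo_mem v) k _ _ (o.sub e he hx) ((o.f k e w).symm.trans h0))
    change jm (chartAt (E 4) (e.symm w) ∘ e.symm) (e (e.symm w)) *ᵥ V e (e (e.symm w)) = _ at k1
    rw [e.right_inv hw] at k1
    rw [k1, map_smul] at k2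
    rw [show S.f k e = fun w => f k (i e) (e.symm w) from funext (o.f k e)]
    exact (dotProduct_comm _ _).trans (k2.symm.trans (smul_eq_zero_of_right _ k3))
  refine DIC.dep (by_contra fun c' => (main2 S (fun m m0 t t1 e he w hw =>
    by_contra fun c => no m m0 t t1 ⟨e, he, w, hw, c⟩) (ht y) (ht z) (tg y) (tg z)
      fun k => c' fun e he w hw => ?_).elim fun ⟨m, m2, T, t1, t2, t3, t4⟩ nu => ?_)
  · obtain ⟨e', e1, e2, e3, e4⟩ := KP.T6.restr (mf 4 X) (U := U) h.opn h.cov he (e.map_target hw)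
    have q : ∀ {V}, HT (mf 4 X) 1 V → V e' (e' (e.symm w)) = V e w := fun v => by
      have k1 := v.cmp e he e' e1.1 _ (e.map_target hw) e2
      have k2 : (mf 4 X).J e e' (e.symm w) = 1 := by
        rw [Mf.J, e3, e4]
        exact (mTR 4 _).2.2.1 e he _ (e.map_target hw)
      simpa only [jd, k2, Matrix.one_mulVec, Matrix.det_one, one_zpow, one_smul, e.right_inv hw]
        using k1
    exact (congrArg₂ wg (q y) (q z)).symm.trans (k e' e1 _ (e'.map_source e2))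
  obtain ⟨j, rfl⟩ : ∃ j, m = j + 1 := ⟨m - 1, by omega⟩
  have q : ∀ k, ⌈-(j * a k)⌉ = -(fl S.toDk (j + 1) k : ℤ) := fun k => by
    rw [Int.ceil_neg, show a k = p k / c from Rat.cast_injective (α := ℝ) (by simpa using ap k),
      ← mul_div_assoc, ← Nat.cast_mul,
      Rat.floor_natCast_div_natCast, fl, o.a, o.c, Nat.add_sub_cancel, Int.natCast_div]
  refine hQ ⟨hI, fun ⟨φ, Θ, r, x, B, gl, ce, hs, pos⟩ => (pos.trans_eq (NSQ.br o (by
    simpa only [ap] using gl) ce hs)).not_ge (NSQ.nu_le _ nu), j, by omega, fun hc =>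
      (dic18 (q := 2) ⟨o.sub, fun e he e' he' x hx hx' => ?_⟩ S.kae (K78.pm_wt S (j + 1)) t1 t2 t3
        hc).elim fun y hy => t4 y hy.1 hy.2⟩
  simp only [Lb, K3E.kan, Mf.Co.tw, K3E.triv, mul_one, o.L, q, zpow_neg, zpow_natCast,
    Finset.prod_inv_distrib]

end Pool.Agent.Lib.N4T
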